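import Pool.Agent.Q302.BS.Scale

/-!
# The maximal estimate for ball sums needs only a relatively dense set of radii and a small ball

`S_R f` is the ball partial sum of the Fourier integral of a Schwartz function `f` on `ℝⁿ`. The
global maximal estimate over all radii `R > 0` is equivalent to the estimate in which only the radii
of a relatively dense set `E` (for instance the integers, or the multiples of a large number) are
used and the maximal function is integrated over one small ball only.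
-/

set_option autoImplicit false

open MeasureTheory Set Filter Topology SchwartzMap FourierTransform
open scoped ENNReal NNReal Real RealInnerProductSpace

namespace Pool.Agent.Results.MP_ee701d_an.IntegerRadii

open Pool.Agent.Q302.BS

/-- the estimate of Q1 in dimension `n`: `∫ (sup_{R>0} |S_R f|)² ≤ C ∫ |f|²` for all Schwartz
functions -/
def MaximalEstimate (n : ℕ) : Prop :=
  ∃ C : ℝ≥0, ∀ f : 𝓢(EuclideanSpace ℝ (Fin n), ℂ),
    ∫⁻ x, (⨆ R : {R : ℝ // 0 < R}, ‖ballSum f R x‖ₑ) ^ 2 ≤ C * ∫⁻ x, ‖f x‖ₑ ^ 2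

/-- the estimate on the ball of radius `ρ` for the radii in `E`:
`∫_{‖x‖ ≤ ρ} (sup_{R ∈ E} |S_R f|)² ≤ C ∫ |f|²` for all Schwartz functions -/
def LocalEstimate (n : ℕ) (ρ : ℝ) (E : Set ℝ) : Prop :=
  ∃ C : ℝ≥0, ∀ f : 𝓢(EuclideanSpace ℝ (Fin n), ℂ),
    ∫⁻ x in {x | ‖x‖ ≤ ρ}, (⨆ R ∈ E, ‖ballSum f R x‖ₑ) ^ 2 ≤ C * ∫⁻ x, ‖f x‖ₑ ^ 2

/-- **Theorem.** Let `n ≥ 1`. (1) For every `ρ > 0` and every set `E ⊆ [0, ∞)` such that each point
of `[0, ∞)` is at distance at most `L` from `E` (for some `L`), the maximal estimate of Q1 in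
dimension `n` is equivalent to the local estimate for the radii in `E` on the ball of radius `ρ`.
(2) In particular it is equivalent to the local estimate for the radii `0, δ, 2δ, 3δ, …` on the ball
of radius `ρ`, for any `δ, ρ > 0`. -/
theorem result (n : ℕ) (hn : 1 ≤ n) :
    (∀ (ρ : ℝ) (E : Set ℝ), 0 < ρ → (∀ r ∈ E, 0 ≤ r) →
      (∃ L : ℝ, ∀ t : ℝ, 0 ≤ t → ∃ r ∈ E, |t - r| ≤ L) →
      (MaximalEstimate n ↔ LocalEstimate n ρ E)) ∧
    ∀ ρ δ : ℝ, 0 < ρ → 0 < δ →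
      (MaximalEstimate n ↔ LocalEstimate n ρ (range fun k : ℕ => k * δ)) := by
  have main : ∀ (ρ : ℝ) (E : Set ℝ), 0 < ρ → (∀ r ∈ E, 0 ≤ r) →
      (∃ L : ℝ, ∀ t : ℝ, 0 ≤ t → ∃ r ∈ E, |t - r| ≤ L) →
      (MaximalEstimate n ↔ LocalEstimate n ρ E) := by
    intro ρ E hρ hE0 ⟨L, hL⟩
    obtain ⟨m, hm⟩ := exists_nat_ge L
    have hE : ∀ t : ℝ, 0 ≤ t → ∃ r ∈ E, 0 ≤ r ∧ |t - r| ≤ m := by
      intro t ht
      obtain ⟨r, hr, h⟩ := hL t ht
      exact ⟨r, hr, hE0 r hr, h.trans hm⟩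
    constructor
    · rintro ⟨C, hC⟩
      refine ⟨C, fun f => le_trans ?_ (hC f)⟩
      refine (setLIntegral_mono' (measurableSet_ball' ρ) fun x _ => ?_).trans
        (setLIntegral_le_lintegral {x : V n | ‖x‖ ≤ ρ}
          fun x => (⨆ R : {R : ℝ // 0 < R}, ‖ballSum f R x‖ₑ) ^ 2)
      refine pow_le_pow_left' (iSup₂_le fun r hr => ?_) 2
      rcases eq_or_lt_of_le (hE0 r hr) with h | h
      · have h0 : ballSum f r x = 0 := by
          unfold ballSum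
          rw [← h]
          refine setIntegral_measure_zero _ ?_
          have h1 : {ξ : V n | ‖ξ‖ ≤ 0} = {0} := by
            ext ξ
            simp
          rw [h1]
          have : Nonempty (Fin n) := ⟨⟨0, hn⟩⟩
          exact measure_singleton 0
        rw [h0]
        simp
      · exact le_iSup (fun R : {R : ℝ // 0 < R} => ‖ballSum f R x‖ₑ) ⟨r, h⟩
    · rintro ⟨C, hC⟩
      set c : ℝ := Real.exp (π * ρ ^ 2) * (288 * n * Real.sqrt n) with hc
      set C' : ℝ≥0∞ := 2 * C + 2 * ENNReal.ofReal ((m + 2 : ℝ) ^ 2) * ENNReal.ofReal c with hC'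
      have hfin : C' ≠ ⊤ := by
        rw [hC']
        exact ENNReal.add_ne_top.2 ⟨ENNReal.mul_ne_top (by norm_num) ENNReal.coe_ne_top,
          ENNReal.mul_ne_top (ENNReal.mul_ne_top (by norm_num) ENNReal.ofReal_ne_top)
            ENNReal.ofReal_ne_top⟩
      refine ⟨C'.toNNReal, ?_⟩
      rw [ENNReal.coe_toNNReal hfin]
      refine global_of_local C' ρ hρ fun f => ?_
      have hg := locInt_schwartz (𝓕 f : 𝓢(V n, ℂ))
      have hpt : ∀ x : V n, (⨆ R : {R : ℝ // 0 < R}, ‖ballSum f R x‖ₑ) ^ 2 ≤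
          2 * (⨆ r ∈ E, ‖ballSum f r x‖ₑ) ^ 2 +
            2 * (ENNReal.ofReal ((m + 2 : ℝ) ^ 2) * W (⇑(𝓕 f : 𝓢(V n, ℂ))) x) := by
        intro x
        rw [← ENNReal.rpow_natCast, ← ENNReal.le_rpow_inv_iff (by norm_num)]
        refine iSup_le fun R => ?_
        rw [ENNReal.le_rpow_inv_iff (by norm_num), ENNReal.rpow_natCast]
        simp_rw [ballSum_eq]
        exact all_radii hg E m hE x R.2.le
      calc ∫⁻ x in {x : V n | ‖x‖ ≤ ρ}, (⨆ R : {R : ℝ // 0 < R}, ‖ballSum f R x‖ₑ) ^ 2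
          ≤ ∫⁻ x in {x : V n | ‖x‖ ≤ ρ}, (2 * (⨆ r ∈ E, ‖ballSum f r x‖ₑ) ^ 2 +
            2 * (ENNReal.ofReal ((m + 2 : ℝ) ^ 2) * W (⇑(𝓕 f : 𝓢(V n, ℂ))) x)) :=
            lintegral_mono hpt
        _ = (∫⁻ x in {x : V n | ‖x‖ ≤ ρ}, 2 * (⨆ r ∈ E, ‖ballSum f r x‖ₑ) ^ 2) +
            ∫⁻ x in {x : V n | ‖x‖ ≤ ρ},
              2 * (ENNReal.ofReal ((m + 2 : ℝ) ^ 2) * W (⇑(𝓕 f : 𝓢(V n, ℂ))) x) :=
            lintegral_add_right _ (((measurable_W hg).const_mul _).const_mul _)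
        _ = 2 * (∫⁻ x in {x : V n | ‖x‖ ≤ ρ}, (⨆ r ∈ E, ‖ballSum f r x‖ₑ) ^ 2) +
            2 * (ENNReal.ofReal ((m + 2 : ℝ) ^ 2) *
              ∫⁻ x in {x : V n | ‖x‖ ≤ ρ}, W (⇑(𝓕 f : 𝓢(V n, ℂ))) x) := by
            rw [lintegral_const_mul' _ _ (by norm_num), lintegral_const_mul' _ _ (by norm_num),
              lintegral_const_mul' _ _ ENNReal.ofReal_ne_top]
        _ ≤ 2 * (C * ∫⁻ x, ‖f x‖ₑ ^ 2) +
            2 * (ENNReal.ofReal ((m + 2 : ℝ) ^ 2) * (ENNReal.ofReal c * ∫⁻ x, ‖f x‖ₑ ^ 2)) := by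
            have h1 := lintegral_W_ball hn hg ρ
            rw [plancherel] at h1
            exact add_le_add (mul_le_mul_right (hC f) _)
              (mul_le_mul_right (mul_le_mul_right h1 _) _)
        _ = C' * ∫⁻ x, ‖f x‖ₑ ^ 2 := by rw [hC']; ring
  refine ⟨main, fun ρ δ hρ hδ => main ρ _ hρ ?_ ⟨δ, ?_⟩⟩
  · rintro r ⟨k, rfl⟩
    positivity
  · intro t ht
    refine ⟨(⌊t / δ⌋₊ : ℝ) * δ, ⟨⌊t / δ⌋₊, rfl⟩, ?_⟩
    have h1 : (⌊t / δ⌋₊ : ℝ) ≤ t / δ := Nat.floor_le (by positivity)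
    have h2 : t / δ < ⌊t / δ⌋₊ + 1 := Nat.lt_floor_add_one _
    rw [le_div_iff₀ hδ] at h1
    rw [div_lt_iff₀ hδ] at h2
    rw [abs_le]
    constructor
    · linarith
    · linarith

end Pool.Agent.Results.MP_ee701d_an.IntegerRadii
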