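import Pool.Agent.Q302.BS.Rand

/-!
# Almost everywhere convergence of ball sums almost surely

Randomize `f ∈ L²(ℝⁿ)` by multiplying its Fourier transform by independent mean zero random
multipliers of modulus at most one, one for each spherical shell of a partition of the frequency
space into shells of bounded thickness (for instance random signs on the unit shells
`k < |ξ| ≤ k + 1`). Then, almost surely, `S_R f^ω → f^ω` almost everywhere as `R → ∞` through all
positive reals.
-/

set_option autoImplicit false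

open MeasureTheory ProbabilityTheory Set Filter Topology FourierTransform
open scoped ENNReal NNReal Real RealInnerProductSpace

namespace Pool.Agent.Results.MP_ee701d_an.RandomShells

section Definitions

variable {X : Type} [NormedAddCommGroup X] [InnerProductSpace ℝ X] [FiniteDimensional ℝ X]
  [MeasurableSpace X] [BorelSpace X]

/-- the ball partial sum `S_R f (x) = ∫_{|ξ| ≤ R} f̂(ξ) e^{2πi x·ξ} dξ` of a function `f ∈ L²(X)`
(`X` a Euclidean space), where `f̂ = 𝓕 f ∈ L²(X)` is its Fourier (Plancherel) transform -/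
noncomputable def partialSum (f : Lp (α := X) ℂ 2 volume) (R : ℝ) (x : X) : ℂ :=
  ∫ ξ in {ξ : X | ‖ξ‖ ≤ R},
    (𝓕 f : Lp (α := X) ℂ 2 volume) ξ * Complex.exp (2 * π * Complex.I * (⟪x, ξ⟫ : ℝ))

/-- `S_R f (x) → f (x)` for almost every `x`, as `R → ∞` through the real numbers -/
def Converges (f : Lp (α := X) ℂ 2 volume) : Prop :=
  ∀ᵐ x : X, Tendsto (fun R : ℝ => partialSum f R x) atTop (𝓝 (f x))

/-- `F̂ = c_k f̂` almost everywhere on the shell `r_k < |ξ| ≤ r_{k+1}`, for every `k` -/
def IsMultiple (r : ℕ → ℝ) (c : ℕ → ℝ) (f F : Lp (α := X) ℂ 2 volume) : Prop :=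
  ∀ᵐ ξ : X, ∀ k : ℕ, r k < ‖ξ‖ → ‖ξ‖ ≤ r (k + 1) →
    (𝓕 F : Lp (α := X) ℂ 2 volume) ξ = (c k : ℂ) * (𝓕 f : Lp (α := X) ℂ 2 volume) ξ

/-- `r` is the sequence of radii `0 = r_0 ≤ r_1 ≤ …`, tending to infinity, of a partition into
shells of thickness at most `L` -/
structure IsPartition (r : ℕ → ℝ) (L : ℝ) : Prop where
  mono : Monotone r
  zero : r 0 = 0
  tendsto : Tendsto r atTop atTop
  thickness : ∀ k, r (k + 1) - r k ≤ L

/-- independent mean zero random variables bounded by one -/
structure IsRandomMultiplier {Ω : Type} [MeasurableSpace Ω] (P : Measure Ω) (ε : ℕ → Ω → ℝ) :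
    Prop where
  measurable : ∀ k, Measurable (ε k)
  indep : iIndepFun ε P
  bounded : ∀ k ω, |ε k ω| ≤ 1
  mean : ∀ k, ∫ ω, ε k ω ∂P = 0

variable (X) in
/-- the statement of the theorem for the Euclidean space `X`: for every `f ∈ L²(X)`, every partition
of the frequency space into shells of bounded thickness and every random multiplier `ε`, the
randomized functions `F` (with `F̂ = ε_k(ω) f̂` on the `k`-th shell) exist for every `ω`, and almost
surely `S_R F → F` almost everywhere as `R → ∞` -/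
def RandomTheorem : Prop :=
  ∀ (f : Lp (α := X) ℂ 2 volume) (r : ℕ → ℝ) (L : ℝ), IsPartition r L →
    ∀ (Ω : Type) [MeasurableSpace Ω] (P : Measure Ω) [IsProbabilityMeasure P] (ε : ℕ → Ω → ℝ),
      IsRandomMultiplier P ε →
        (∀ ω, ∃ F, IsMultiple r (fun k => ε k ω) f F) ∧
        ∀ᵐ ω ∂P, ∀ F, IsMultiple r (fun k => ε k ω) f F → Converges F

end Definitions

theorem partialSum_eq {n : ℕ} (f : Lp (α := EuclideanSpace ℝ (Fin n)) ℂ 2 volume) (R : ℝ)
    (x : EuclideanSpace ℝ (Fin n)) : partialSum f R x =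
      Pool.Agent.Q302.BS.S (𝓕 f : Lp (α := EuclideanSpace ℝ (Fin n)) ℂ 2 volume) R x := by
  unfold partialSum Pool.Agent.Q302.BS.S Pool.Agent.Q302.BS.IF
  rw [← integral_indicator (Pool.Agent.Q302.BS.measurableSet_ball' R)]
  refine integral_congr_ae (Eventually.of_forall fun ξ => ?_)
  simp only
  by_cases h : ξ ∈ {ξ : EuclideanSpace ℝ (Fin n) | ‖ξ‖ ≤ R}
  · rw [indicator_of_mem h, indicator_of_mem h]
    rfl
  · rw [indicator_of_notMem h, indicator_of_notMem h, zero_mul]

/-- a function whose Fourier transform is the given multiple exists -/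
theorem exists_multiple {n : ℕ} (f : Lp (α := EuclideanSpace ℝ (Fin n)) ℂ 2 volume) {r : ℕ → ℝ}
    (hr : Monotone r) (hrt : Tendsto r atTop atTop) (c : ℕ → ℝ) (hc : ∀ k, |c k| ≤ 1) :
    ∃ F : Lp (α := EuclideanSpace ℝ (Fin n)) ℂ 2 volume, IsMultiple r c f F := by
  classical
  set g : Lp (α := EuclideanSpace ℝ (Fin n)) ℂ 2 volume := 𝓕 f with hg
  have hex : ∀ t : ℝ, ∃ k : ℕ, t ≤ r (k + 1) := by
    intro t
    obtain ⟨k, hk⟩ := (((tendsto_add_atTop_iff_nat 1).2 hrt).eventually_ge_atTop t).exists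
    exact ⟨k, hk⟩
  set κ : ℝ → ℕ := fun t => Nat.find (hex t) with hκ
  have hκm : Monotone κ := fun s t hst =>
    Nat.find_min' (hex s) (hst.trans (Nat.find_spec (hex t)))
  have hmeas : Measurable fun ξ : EuclideanSpace ℝ (Fin n) => (c (κ ‖ξ‖) : ℂ) :=
    Complex.measurable_ofReal.comp ((measurable_from_nat (f := c)).comp
      (hκm.measurable.comp measurable_norm))
  have hL : MemLp (fun ξ => (c (κ ‖ξ‖) : ℂ) * g ξ) 2 volume := by
    refine (Lp.memLp g).mono (hmeas.aestronglyMeasurable.mul (Lp.aestronglyMeasurable g))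
      (Eventually.of_forall fun ξ => ?_)
    rw [norm_mul, Complex.norm_real, Real.norm_eq_abs]
    exact mul_le_of_le_one_left (norm_nonneg _) (hc _)
  refine ⟨𝓕⁻ (hL.toLp _), ?_⟩
  unfold IsMultiple
  rw [FourierTransform.fourier_fourierInv_eq]
  filter_upwards [hL.coeFn_toLp] with ξ hξ k h1 h2
  rw [hξ]
  have h3 : κ ‖ξ‖ = k := by
    refine le_antisymm (Nat.find_min' (hex _) h2) ?_
    by_contra hcon
    push Not at hcon
    have h4 : ‖ξ‖ ≤ r (κ ‖ξ‖ + 1) := Nat.find_spec (hex ‖ξ‖)
    have h5 : r (κ ‖ξ‖ + 1) ≤ r k := hr hcon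
    linarith
  rw [h3]

/-- **Theorem.** Let `n ≥ 1` and `f ∈ L²(ℝⁿ)`, let `0 = r_0 ≤ r_1 ≤ …` be radii tending to infinity
with bounded differences, and let `ε_0, ε_1, …` be independent random variables with mean zero and
values in `[-1, 1]`. For every `ω` there is `F ∈ L²(ℝⁿ)` with `F̂ = ε_k(ω) f̂` on the shell
`r_k < |ξ| ≤ r_{k+1}` for all `k`; and almost surely `S_R F (x) → F (x)` for almost every `x`, as
`R → ∞` through all real numbers. -/
theorem result (n : ℕ) (hn : 1 ≤ n) : RandomTheorem (EuclideanSpace ℝ (Fin n)) := by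
  intro f r L hr Ω _ P _ ε hε
  refine ⟨fun ω => exists_multiple f hr.mono hr.tendsto _ fun k => hε.bounded k ω, ?_⟩
  obtain ⟨m, hm⟩ := exists_nat_ge L
  have hrm : ∀ k, r (k + 1) ≤ r k + m := fun k => by
    have := hr.thickness k
    linarith
  filter_upwards [Pool.Agent.Q302.BS.random_shells hn f hr.mono hr.zero hr.tendsto m hrm
    hε.measurable hε.indep hε.bounded hε.mean] with ω hω F hF
  unfold Converges
  filter_upwards [hω F hF] with x hx
  refine hx.congr fun R => ?_
  rw [partialSum_eq]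

end Pool.Agent.Results.MP_ee701d_an.RandomShells
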