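import Pool.Agent.Q302.BS.Win

/-!
# Almost everywhere convergence of ball sums along sets of radii

`S_R f` is the ball partial sum of the Fourier integral of `f ∈ L²(ℝⁿ)`. Let `E` be a set of radii
and let `N j` be the number of unit intervals `[k, k + 1]`, `2 ^ j ≤ k < 2 ^ (j + 1)`, which meet
`E`. If `∑_j (1 + log₂ N_j)² ∫_{2^j < |ξ| ≤ 2^{j+1}} |f̂|²` is finite, then `S_R f → f` almost
everywhere as `R → ∞` in `E`.
-/

set_option autoImplicit false

open MeasureTheory Set Filter Topology FourierTransform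
open scoped ENNReal NNReal Real RealInnerProductSpace

namespace Pool.Agent.Results.MP_ee701d_an.UnitWindows

section Definitions

variable {X : Type} [NormedAddCommGroup X] [InnerProductSpace ℝ X] [FiniteDimensional ℝ X]
  [MeasurableSpace X] [BorelSpace X]

/-- the ball partial sum `S_R f (x) = ∫_{|ξ| ≤ R} f̂(ξ) e^{2πi x·ξ} dξ` of a function `f ∈ L²(X)`
(`X` a Euclidean space), where `f̂ = 𝓕 f ∈ L²(X)` is its Fourier (Plancherel) transform -/
noncomputable def partialSum (f : Lp (α := X) ℂ 2 volume) (R : ℝ) (x : X) : ℂ :=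
  ∫ ξ in {ξ : X | ‖ξ‖ ≤ R},
    (𝓕 f : Lp (α := X) ℂ 2 volume) ξ * Complex.exp (2 * π * Complex.I * (⟪x, ξ⟫ : ℝ))

/-- the number of integers `k` in `[2 ^ j, 2 ^ (j + 1))` for which `[k, k + 1]` meets `E` -/
noncomputable def windows (E : Set ℝ) (j : ℕ) : ℕ :=
  {k : ℕ | 2 ^ j ≤ k ∧ k < 2 ^ (j + 1) ∧ (Icc (k : ℝ) (k + 1) ∩ E).Nonempty}.ncard

/-- the mass `∫ |f̂|²` over the dyadic shell `2 ^ j < |ξ| ≤ 2 ^ (j + 1)` -/
noncomputable def shellMass (f : Lp (α := X) ℂ 2 volume) (j : ℕ) : ℝ≥0∞ :=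
  ∫⁻ ξ in {ξ : X | 2 ^ j < ‖ξ‖ ∧ ‖ξ‖ ≤ 2 ^ (j + 1)}, ‖(𝓕 f : Lp (α := X) ℂ 2 volume) ξ‖ₑ ^ 2

/-- `S_R f (x) → f (x)` for almost every `x`, as `R → ∞` inside the set `E` -/
def ConvergesAlong (E : Set ℝ) (f : Lp (α := X) ℂ 2 volume) : Prop :=
  ∀ᵐ x : X, Tendsto (fun R : ℝ => partialSum f R x) (atTop ⊓ 𝓟 E) (𝓝 (f x))

/-- the quantity `∑_j (1 + log₂ N_j)² ∫_{2^j < |ξ| ≤ 2^{j+1}} |f̂|²`, where `N_j` is the number of
unit windows of the `j`-th dyadic block which meet `E` -/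
noncomputable def weighted (E : Set ℝ) (f : Lp (α := X) ℂ 2 volume) : ℝ≥0∞ :=
  ∑' j : ℕ, (1 + (Nat.log 2 (windows E j) : ℝ≥0∞)) ^ 2 * shellMass f j

variable (X) in
/-- for every set `E` of radii: (1) if `∑_j (1 + log₂ N_j)² ∫_{2^j < |ξ| ≤ 2^{j+1}} |f̂|² < ∞`,
then `S_R f → f` almost everywhere along `E`; (2) if the numbers `N_j` are bounded, this holds for
every `f ∈ L²(X)` -/
def WindowTheorem : Prop :=
  ∀ E : Set ℝ,
    (∀ f : Lp (α := X) ℂ 2 volume, weighted E f < ⊤ → ConvergesAlong E f) ∧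
    ((∃ M : ℕ, ∀ j, windows E j ≤ M) → ∀ f : Lp (α := X) ℂ 2 volume, ConvergesAlong E f)

end Definitions

theorem partialSum_eq {n : ℕ} (f : Lp (α := EuclideanSpace ℝ (Fin n)) ℂ 2 volume) (R : ℝ)
    (x : EuclideanSpace ℝ (Fin n)) : partialSum f R x =
      Pool.Agent.Q302.BS.S (𝓕 f : Lp (α := EuclideanSpace ℝ (Fin n)) ℂ 2 volume) R x := by
  unfold partialSum Pool.Agent.Q302.BS.S Pool.Agent.Q302.BS.IF
  rw [← integral_indicator (Pool.Agent.Q302.BS.measurableSet_ball' R)]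
  refine integral_congr_ae (Eventually.of_forall fun ξ => ?_)
  simp only
  by_cases h : ξ ∈ {ξ : EuclideanSpace ℝ (Fin n) | ‖ξ‖ ≤ R}
  · rw [indicator_of_mem h, indicator_of_mem h]
    rfl
  · rw [indicator_of_notMem h, indicator_of_notMem h, zero_mul]

/-- **Theorem.** Let `n ≥ 1` and let `E` be a set of real numbers.
(1) If `f ∈ L²(ℝⁿ)` and `∑_j (1 + log₂ N_j)² ∫_{2^j < |ξ| ≤ 2^{j+1}} |f̂|² < ∞`, where `N_j` is the
number of unit windows of the `j`-th dyadic block which meet `E`, then for almost every `x`,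
`S_R f (x) → f (x)` as `R → ∞` in `E`.
(2) In particular, if the numbers `N_j` are bounded, this holds for every `f ∈ L²(ℝⁿ)`. -/
theorem result (n : ℕ) (hn : 1 ≤ n) : WindowTheorem (EuclideanSpace ℝ (Fin n)) := by
  intro E
  have key : ∀ f : Lp (α := EuclideanSpace ℝ (Fin n)) ℂ 2 volume,
      weighted E f < ⊤ → ConvergesAlong E f := by
    intro f hf
    unfold weighted at hf
    have h := Pool.Agent.Q302.BS.unit_windows hn f E (windows E) (fun j => le_rfl) (by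
      refine ne_of_lt (lt_of_le_of_lt (le_of_eq ?_) hf)
      refine tsum_congr fun j => ?_
      rw [add_comm]
      rfl)
    unfold ConvergesAlong
    filter_upwards [h] with x hx
    refine hx.congr fun R => ?_
    rw [partialSum_eq]
  refine ⟨key, ?_⟩
  rintro ⟨M, hM⟩ f
  refine key f ?_
  have h1 : ∑' j : ℕ, shellMass f j ≤ ∫⁻ ξ,
      ‖(𝓕 f : Lp (α := EuclideanSpace ℝ (Fin n)) ℂ 2 volume) ξ‖ₑ ^ 2 := by
    have hd : Pairwise (Function.onFun Disjoint fun j : ℕ =>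
        (Pool.Agent.Q302.BS.shell (2 ^ j) (2 ^ (j + 1)) : Set (EuclideanSpace ℝ (Fin n)))) := by
      intro i j hij
      simp only [Function.onFun]
      rw [Set.disjoint_left]
      intro ξ hi hj
      obtain ⟨h1, h2⟩ := hi
      obtain ⟨h3, h4⟩ := hj
      have h7 : i < j + 1 :=
        (pow_lt_pow_iff_right₀ (show (1 : ℝ) < 2 by norm_num)).1 (lt_of_lt_of_le h1 h4)
      have h8 : j < i + 1 :=
        (pow_lt_pow_iff_right₀ (show (1 : ℝ) < 2 by norm_num)).1 (lt_of_lt_of_le h3 h2)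
      exact hij (by omega)
    have h0 := lintegral_iUnion (μ := volume)
      (fun j : ℕ => Pool.Agent.Q302.BS.measurableSet_shell (n := n) (2 ^ j) (2 ^ (j + 1))) hd
      (fun ξ => ‖(𝓕 f : Lp (α := EuclideanSpace ℝ (Fin n)) ℂ 2 volume) ξ‖ₑ ^ 2)
    calc ∑' j : ℕ, shellMass f j = ∫⁻ ξ in ⋃ j : ℕ, (Pool.Agent.Q302.BS.shell (2 ^ j) (2 ^ (j + 1)) :
          Set (EuclideanSpace ℝ (Fin n))),
          ‖(𝓕 f : Lp (α := EuclideanSpace ℝ (Fin n)) ℂ 2 volume) ξ‖ₑ ^ 2 := h0.symm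
      _ ≤ _ := setLIntegral_le_lintegral _ _
  have h2 : weighted E f ≤ (1 + (Nat.log 2 M : ℝ≥0∞)) ^ 2 * ∑' j : ℕ, shellMass f j := by
    unfold weighted
    rw [← ENNReal.tsum_mul_left]
    refine ENNReal.tsum_le_tsum fun j => ?_
    refine mul_le_mul' (pow_le_pow_left' (add_le_add le_rfl ?_) 2) le_rfl
    exact_mod_cast Nat.log_mono_right (hM j)
  refine lt_of_le_of_lt (h2.trans (mul_le_mul_right h1 _)) (ENNReal.mul_lt_top ?_ ?_)
  · exact ENNReal.pow_lt_top (ENNReal.add_lt_top.2 ⟨by norm_num, ENNReal.natCast_lt_top _⟩)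
  · exact lt_top_iff_ne_top.2 (Pool.Agent.Q302.BS.lintegral_Lp_ne_top _)

end Pool.Agent.Results.MP_ee701d_an.UnitWindows
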